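import Mathlib
import Pool.Agent.Q182.SemilatticeDefs
import Pool.Agent.Q182.MCExample2

/-!
# All maximal chains s-complete does not imply s-complete
-/

namespace Pool.Agent.Results.MP_cb28d9_gt.NotSComplete

open Q182

/-- There is a regular Hausdorff topological semilattice `X` that is not `s`-complete although
every maximal chain `L` of `X` is closed under the product and, with the subspace topology and the
restricted product, is `s`-complete. -/
theorem result :
    ∃ (X : Type) (_ : SemilatticeInf X) (_ : TopologicalSpace X),
      ContinuousInf X ∧ T2Space X ∧ RegularSpace X ∧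
        (∀ L : Set X, IsMaxChain (· ≤ ·) L →
          ∃ hinf : ∀ ⦃x y : X⦄, x ∈ L → y ∈ L → x ⊓ y ∈ L,
            @IsSComplete ↥L (Subtype.semilatticeInf hinf) inferInstance) ∧
        ¬ IsSComplete X := by
  refine ⟨MC.Pt, inferInstance, inferInstance, inferInstance, inferInstance, inferInstance,
    fun L hL => ?_, MC.not_sComplete⟩
  have hinf : ∀ ⦃x y : MC.Pt⦄, x ∈ L → y ∈ L → x ⊓ y ∈ L := by
    intro x y hx hy
    rcases hL.1.total hx hy with h | h
    · rw [inf_eq_left.2 h]
      exact hx
    · rw [inf_eq_right.2 h]
      exact hy
  exact ⟨hinf, MC.maxChain_sComplete L hL hinf⟩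

end Pool.Agent.Results.MP_cb28d9_gt.NotSComplete
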